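import Mathlib

/-!
# Three commuting unital normal CP maps without any dilation

Problem MP_0a86e9_an, Q1.  We exhibit three commuting unital normal completely positive maps on
`B(ℂ¹⁰)` whose associated CP-semigroup over `ℕ³` has no dilation whatsoever.
-/

namespace Pool.Agent.Results.MP_0a86e9_an.NoDilation

open scoped InnerProductSpace ComplexOrder
open ContinuousLinearMap

universe u v

section Defs

variable {H : Type u} [NormedAddCommGroup H] [InnerProductSpace ℂ H] [CompleteSpace H]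
variable {K : Type v} [NormedAddCommGroup K] [InnerProductSpace ℂ K] [CompleteSpace K]

/-- The type of elements of a (concrete) von Neumann algebra `A ⊆ B(H)`. -/
def El (A : VonNeumannAlgebra H) : Type u := A.toStarSubalgebra

namespace El

variable {A : VonNeumannAlgebra H}

/-- The action of an element of `A ⊆ B(H)` on the vectors of `H`. -/
def app (a : El A) : H → H := a.1

instance : CoeFun (El A) (fun _ => H → H) := ⟨app⟩
noncomputable instance : One (El A) := inferInstanceAs (One A.toStarSubalgebra)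
noncomputable instance : Add (El A) := inferInstanceAs (Add A.toStarSubalgebra)
noncomputable instance : Mul (El A) := inferInstanceAs (Mul A.toStarSubalgebra)
noncomputable instance : SMul ℂ (El A) := inferInstanceAs (SMul ℂ A.toStarSubalgebra)
noncomputable instance : Star (El A) := inferInstanceAs (Star A.toStarSubalgebra)
noncomputable instance : Norm (El A) := inferInstanceAs (Norm A.toStarSubalgebra)

end El

/-- Positivity of an `n × n` matrix of operators on `H`, seen as an operator on `Hⁿ`. -/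
def MatPos {n : ℕ} (x : Fin n → Fin n → H → H) : Prop :=
  ∀ ξ : Fin n → H, 0 ≤ ∑ i, ∑ j, ⟪ξ i, x i j (ξ j)⟫_ℂ

/-- Positivity of all amplifications of a map of a von Neumann algebra: positive matrices are
mapped to positive matrices. -/
def IsCP (A : VonNeumannAlgebra H) (T : El A → El A) : Prop :=
  ∀ (n : ℕ) (x : Fin n → Fin n → El A),
    MatPos (fun i j => ⇑(x i j)) → MatPos (fun i j => ⇑(T (x i j)))

/-- The functional `a ↦ ∑ₙ ⟨ηₙ, a ξₙ⟩`. -/
noncomputable def swFun (ξ η : ℕ → H) (a : H → H) : ℂ := ∑' n, ⟪η n, a (ξ n)⟫_ℂ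

/-- Square summable sequences of vectors. -/
def SqSum (ξ : ℕ → H) : Prop := Summable fun n => ‖ξ n‖ ^ 2

/-- The `σ`-weak (ultraweak) topology of a von Neumann algebra `A ⊆ B(H)`: the coarsest topology
making all functionals `a ↦ ∑ₙ ⟨ηₙ, a ξₙ⟩` with `∑ ‖ξₙ‖² < ∞`, `∑ ‖ηₙ‖² < ∞` continuous. -/
@[reducible] noncomputable def swTop (A : VonNeumannAlgebra H) : TopologicalSpace (El A) :=
  ⨅ p : {p : (ℕ → H) × (ℕ → H) // SqSum p.1 ∧ SqSum p.2},
    TopologicalSpace.induced (fun a : El A => swFun p.1.1 p.1.2 a) inferInstance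

/-- Normality: continuity for the `σ`-weak topologies. -/
def IsNormal (A : VonNeumannAlgebra H) (T : El A → El A) : Prop :=
  @Continuous (El A) (El A) (swTop A) (swTop A) T

/-- A normal contractive completely positive linear map on the von Neumann algebra `A`. -/
structure IsNCCP (A : VonNeumannAlgebra H) (T : El A → El A) : Prop where
  map_add : ∀ a b, T (a + b) = T a + T b
  map_smul : ∀ (c : ℂ) a, T (c • a) = c • T a
  cp : IsCP A T
  contr : ∀ a, ‖T a‖ ≤ ‖a‖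
  normal : IsNormal A T

/-- A CP-semigroup over `ℕᵏ` on the von Neumann algebra `A`: a family `T_s`, `s ∈ ℕᵏ`, of normal
contractive completely positive maps with `T_0 = id` and `T_{s+t} = T_s ∘ T_t`. -/
structure IsCPSemigroup {k : ℕ} (A : VonNeumannAlgebra H)
    (T : (Fin k → ℕ) → El A → El A) : Prop where
  nccp : ∀ s, IsNCCP A (T s)
  zero : T 0 = id
  add : ∀ s t, T (s + t) = T s ∘ T t

/-- An E-semigroup: a CP-semigroup whose members are (not necessarily unital)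
`*`-endomorphisms. -/
structure IsESemigroup {k : ℕ} (B : VonNeumannAlgebra K)
    (θ : (Fin k → ℕ) → El B → El B) : Prop extends IsCPSemigroup B θ where
  map_mul : ∀ s x y, θ s (x * y) = θ s x * θ s y
  map_star : ∀ s x, θ s (star x) = star (θ s x)

/-- `b = V a V*`: the operator `b` on `K` is the operator `a` on `H`, transported to the subspace
`V(H)` of `K` and extended by `0` on its orthogonal complement. -/
def IsExt (V : H → K) (a : H → H) (b : K → K) : Prop :=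
  (∀ x, b (V x) = V (a x)) ∧ ∀ y, (∀ x, ⟪V x, y⟫_ℂ = 0) → b y = 0

/-- `a = V* b V`: the operator `a` on `H` is the compression of the operator `b` on `K`. -/
def IsCompr (V : H → K) (a : H → H) (b : K → K) : Prop :=
  ∀ x y, ⟪x, a y⟫_ℂ = ⟪V x, b (V y)⟫_ℂ

/-- `(p, K, B, θ)` is a dilation of the family `T` over `ℕᵏ` on `A ⊆ B(H)`.  Here `H` is
identified with a subspace of `K` through the isometry `V`, and `p = V V*` is the projection of
`K` onto `H`: `p ∈ B`, the corner `p B p` is `A` (elements of `A`, extended by `0`, are in `B`;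
compressions to `H` of elements of `B` are in `A`), `θ` is an E-semigroup on `B`, and
`T_s(a) = p θ_s(a) p` for all `a ∈ A`, `s ∈ ℕᵏ`. -/
structure IsDilation {k : ℕ} {A : VonNeumannAlgebra H} (T : (Fin k → ℕ) → El A → El A)
    (V : H →ₗᵢ[ℂ] K) (B : VonNeumannAlgebra K) (θ : (Fin k → ℕ) → El B → El B) : Prop where
  esemigroup : IsESemigroup B θ
  proj_mem : ∃ p : El B, IsExt V id p
  corner_ge : ∀ a : El A, ∃ b : El B, IsExt V a b
  corner_le : ∀ b : El B, ∃ a : El A, IsCompr V a b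
  dilates : ∀ (s : Fin k → ℕ) (a : El A) (b : El B), IsExt V a b → IsCompr V (T s a) (θ s b)

/-- The family `T` over `ℕᵏ` on `A` has a dilation `(p, K, B, θ)` for some Hilbert space `K` (in
the universe `v`), some von Neumann algebra `B ⊆ B(K)` and some E-semigroup `θ` on `B`. -/
def HasDilation {k : ℕ} {A : VonNeumannAlgebra H} (T : (Fin k → ℕ) → El A → El A) : Prop :=
  ∃ (K : Type v) (_ : NormedAddCommGroup K) (_ : InnerProductSpace ℂ K) (_ : CompleteSpace K)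
    (V : H →ₗᵢ[ℂ] K) (B : VonNeumannAlgebra K) (θ : (Fin k → ℕ) → El B → El B), IsDilation T V B θ

/-- The semigroup `T_s = T₁^{s 0} T₂^{s 1} T₃^{s 2}` over `ℕ³` generated by three (commuting)
maps. -/
def semi {A : VonNeumannAlgebra H} (T₁ T₂ T₃ : El A → El A) : (Fin 3 → ℕ) → El A → El A :=
  fun s => T₁^[s 0] ∘ T₂^[s 1] ∘ T₃^[s 2]

/-- `A = B(H)`. -/
def IsFull (A : VonNeumannAlgebra H) : Prop := ∀ a : H →L[ℂ] H, a ∈ A

end Defs

section NoDil

variable {H : Type u} [NormedAddCommGroup H] [InnerProductSpace ℂ H] [CompleteSpace H]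
variable {K : Type v} [NormedAddCommGroup K] [InnerProductSpace ℂ K] [CompleteSpace K]

/-- The elements of `A`, with their algebra structure. -/
abbrev El' (A : VonNeumannAlgebra H) : Type u := A.toStarSubalgebra

/-- The bounded operator `V a V*` on `K`. -/
noncomputable def amp (V : H →ₗᵢ[ℂ] K) (a : H →L[ℂ] H) : K →L[ℂ] K :=
  V.toContinuousLinearMap ∘L a ∘L adjoint V.toContinuousLinearMap

/-- The compression `V* b V` to `H` of `b ∈ B(K)`. -/
noncomputable def cmp (V : H →ₗᵢ[ℂ] K) (b : K →L[ℂ] K) : H →L[ℂ] H :=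
  adjoint V.toContinuousLinearMap ∘L b ∘L V.toContinuousLinearMap

/-- the rank one operator `z ↦ ⟨w, z⟩ v`. -/
noncomputable def rk (v w : H) : H →L[ℂ] H := (innerSL ℂ w).smulRight v

omit [CompleteSpace H] in
@[simp] lemma rk_apply (v w z : H) : rk v w z = ⟪w, z⟫_ℂ • v := rfl

omit [CompleteSpace H] in
lemma norm_rk_le (v w : H) (hv : ‖v‖ = 1) (hw : ‖w‖ = 1) : ‖rk v w‖ ≤ 1 := by
  refine ContinuousLinearMap.opNorm_le_bound _ zero_le_one (fun z => ?_)
  rw [rk_apply, norm_smul, hv, mul_one]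
  have := norm_inner_le_norm (𝕜 := ℂ) w z
  rw [hw] at this
  exact this

variable (V : H →ₗᵢ[ℂ] K)

lemma adj_V (x : H) : adjoint V.toContinuousLinearMap (V x) = x := by
  refine ext_inner_left ℂ (fun y => ?_)
  rw [adjoint_inner_right]
  exact V.inner_map_map y x

@[simp] lemma amp_apply (a : H →L[ℂ] H) (y : K) :
    amp V a y = V (a (adjoint V.toContinuousLinearMap y)) := rfl

@[simp] lemma cmp_apply (b : K →L[ℂ] K) (x : H) :
    cmp V b x = adjoint V.toContinuousLinearMap (b (V x)) := rfl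

lemma amp_mul (a b : H →L[ℂ] H) : amp V a * amp V b = amp V (a * b) := by
  ext y
  show amp V a (amp V b y) = _
  simp only [amp_apply, adj_V]
  rfl

lemma norm_adj_le (y : K) : ‖adjoint V.toContinuousLinearMap y‖ ≤ ‖y‖ := by
  have h1 : ‖adjoint V.toContinuousLinearMap‖ ≤ 1 := by
    rw [LinearIsometryEquiv.norm_map]
    exact V.norm_toContinuousLinearMap_le
  calc ‖adjoint V.toContinuousLinearMap y‖ ≤ ‖adjoint V.toContinuousLinearMap‖ * ‖y‖ :=
        le_opNorm _ _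
    _ ≤ 1 * ‖y‖ := by gcongr
    _ = ‖y‖ := one_mul _

lemma norm_amp_le (a : H →L[ℂ] H) (ha : ‖a‖ ≤ 1) : ‖amp V a‖ ≤ 1 := by
  refine ContinuousLinearMap.opNorm_le_bound _ zero_le_one (fun y => ?_)
  rw [amp_apply, V.norm_map, one_mul]
  calc ‖a (adjoint V.toContinuousLinearMap y)‖ ≤ ‖a‖ * ‖adjoint V.toContinuousLinearMap y‖ :=
        le_opNorm _ _
    _ ≤ 1 * ‖adjoint V.toContinuousLinearMap y‖ := by gcongr
    _ ≤ ‖y‖ := by rw [one_mul]; exact norm_adj_le V y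

/-- A vector of `K` whose norm does not exceed that of its projection to `H` lies in `H`. -/
lemma eq_of_norm_le (y : K) (h : ‖y‖ ≤ ‖adjoint V.toContinuousLinearMap y‖) :
    y = V (adjoint V.toContinuousLinearMap y) := by
  set x := adjoint V.toContinuousLinearMap y with hx
  have h1 : ⟪y, V x⟫_ℂ = ⟪x, x⟫_ℂ := by
    rw [hx]
    exact (adjoint_inner_left V.toContinuousLinearMap _ _).symm
  have h2 : ‖y - V x‖ ^ 2 = ‖y‖ ^ 2 - ‖x‖ ^ 2 := by
    rw [@norm_sub_sq ℂ, V.norm_map, h1, inner_self_eq_norm_sq_to_K]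
    norm_cast
    ring
  have h3 : ‖y - V x‖ ^ 2 ≤ 0 := by
    rw [h2]
    have := pow_le_pow_left₀ (norm_nonneg y) h 2
    linarith
  have h4 : ‖y - V x‖ = 0 := by
    have := sq_nonneg ‖y - V x‖
    exact pow_eq_zero_iff two_ne_zero |>.1 (le_antisymm h3 this)
  exact sub_eq_zero.1 (norm_eq_zero.1 h4)

lemma isExt_amp (a : H →L[ℂ] H) : IsExt V a (amp V a) := by
  refine ⟨fun x => ?_, fun y hy => ?_⟩
  · rw [amp_apply, adj_V]
  · have : adjoint V.toContinuousLinearMap y = 0 := by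
      refine ext_inner_left ℂ (fun x => ?_)
      rw [adjoint_inner_right, inner_zero_right]
      exact hy x
    rw [amp_apply, this, map_zero, map_zero]

lemma eq_amp_of_isExt {a : H →L[ℂ] H} {b : K →L[ℂ] K} (h : IsExt V a b) : b = amp V a := by
  refine ContinuousLinearMap.ext fun y => ?_
  have h0 : b (y - V (adjoint V.toContinuousLinearMap y)) = 0 := by
    refine h.2 _ fun x => ?_
    rw [inner_sub_right, V.inner_map_map, adjoint_inner_right]
    exact sub_self _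
  rw [map_sub, sub_eq_zero] at h0
  rw [h0, amp_apply]
  exact h.1 _

lemma eq_cmp_of_isCompr {a : H →L[ℂ] H} {b : K →L[ℂ] K} (h : IsCompr V a b) : a = cmp V b := by
  refine ContinuousLinearMap.ext fun y => ext_inner_left ℂ fun x => ?_
  rw [h x y, cmp_apply, adjoint_inner_right]
  rfl

/-- The main obstruction. -/
theorem no_dilation_of {e : Fin 10 → H} (hn : ∀ i, ‖e i‖ = 1)
    {A : VonNeumannAlgebra H} (hA : ∀ a : H →L[ℂ] H, a ∈ A)
    {T₁ T₂ T₃ : El A → El A}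
    (h23 : (T₂ ⟨rk (e 1) (e 0), hA _⟩).1 (e 3) = e 6)
    (h12 : (T₁ ⟨rk (e 3) (e 0), hA _⟩).1 (e 2) = e 6)
    (h34 : (T₃ ⟨rk (e 2) (e 0), hA _⟩).1 (e 4) = - e 8)
    (h14 : (T₁ ⟨rk (e 4) (e 0), hA _⟩).1 (e 2) = e 8)
    (h14' : (T₁ ⟨rk (e 4) (e 0), hA _⟩).1 (e 1) = e 7)
    (h34' : (T₃ ⟨rk (e 1) (e 0), hA _⟩).1 (e 4) = e 7)
    (h39 : (T₃ ⟨rk (e 3) (e 0), hA _⟩).1 (e 4) = e 9)
    (h29 : (T₂ ⟨rk (e 4) (e 0), hA _⟩).1 (e 3) = e 9)
    (h10 : (T₁ ⟨rk (e 0) (e 0), hA _⟩).1 (e 2) = e 2)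
    (B : VonNeumannAlgebra K) (θ : (Fin 3 → ℕ) → El B → El B) :
    ¬ IsDilation (semi T₁ T₂ T₃) V B θ := by
  intro hd
  -- elements of `B` coming from `A`
  have hmem : ∀ a : H →L[ℂ] H, amp V a ∈ B := by
    intro a
    obtain ⟨b, hb⟩ := hd.corner_ge ⟨a, hA a⟩
    have : b.1 = amp V a := eq_amp_of_isExt V hb
    rw [← this]
    exact b.2
  let hat : (H →L[ℂ] H) → El' B := fun a => ⟨amp V a, hmem a⟩
  have hat_mul : ∀ a b, hat a * hat b = hat (a * b) := fun a b => Subtype.ext (amp_mul V a b)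
  -- the three generators of `θ`
  let m : Fin 3 → (El' B → El' B) := fun i => θ (Pi.single i 1)
  have hcomm : ∀ i j x, m i (m j x) = m j (m i x) := by
    intro i j x
    have h1 := hd.esemigroup.add (Pi.single i 1) (Pi.single j 1)
    have h2 := hd.esemigroup.add (Pi.single j 1) (Pi.single i 1)
    rw [add_comm, h2] at h1
    exact (congrArg (fun f => f x) h1).symm
  have hmul : ∀ i x y, m i (x * y) = m i x * m i y := fun i x y => hd.esemigroup.map_mul _ x y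
  -- the compression property for the generators
  let T : Fin 3 → (El A → El A) := ![T₁, T₂, T₃]
  have hT : ∀ i, semi T₁ T₂ T₃ (Pi.single i 1) = T i := by
    intro i
    fin_cases i <;> simp [semi, T]
  have hcmp : ∀ i (a : H →L[ℂ] H), (T i ⟨a, hA a⟩ : El' A).1 = cmp V (m i (hat a)).1 := by
    intro i a
    rw [← hT i]
    exact eq_cmp_of_isCompr V (hd.dilates (Pi.single i 1) ⟨a, hA a⟩ (hat a) (isExt_amp V a))
  -- the key computation
  have key : ∀ i (a : H →L[ℂ] H) (v w w' : H), ‖a‖ ≤ 1 →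
      (T i ⟨a, hA a⟩ : El' A).1 v = w → ‖w‖ = ‖v‖ →
      m i (hat a) * hat (rk v w') = hat (rk w w') := by
    intro i a v w w' ha hw hnorm
    have h1 : adjoint V.toContinuousLinearMap ((m i (hat a) : K →L[ℂ] K) (V v)) = w := by
      rw [← hw, hcmp i a]
      rfl
    have h2 : ‖(m i (hat a) : K →L[ℂ] K)‖ ≤ 1 :=
      ((hd.esemigroup.nccp (Pi.single i 1)).contr (hat a)).trans (norm_amp_le V a ha)
    have h3 : (m i (hat a) : K →L[ℂ] K) (V v) = V w := by
      rw [← h1]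
      refine eq_of_norm_le V _ ?_
      rw [h1, hnorm]
      calc ‖(m i (hat a) : K →L[ℂ] K) (V v)‖ ≤ ‖(m i (hat a) : K →L[ℂ] K)‖ * ‖V v‖ :=
            le_opNorm _ _
        _ ≤ 1 * ‖V v‖ := by gcongr
        _ = ‖v‖ := by rw [one_mul, V.norm_map]
    refine Subtype.ext ?_
    ext y
    show (m i (hat a) : K →L[ℂ] K) (V (⟪w', adjoint V.toContinuousLinearMap y⟫_ℂ • v)) =
      V (⟪w', adjoint V.toContinuousLinearMap y⟫_ℂ • w)
    rw [map_smul, map_smul, h3, map_smul]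
  -- notation
  let E : Fin 10 → El' B := fun i => hat (rk (e i) (e 0))
  have hEn : ∀ i, ‖rk (e i) (e 0)‖ ≤ 1 := fun i => norm_rk_le _ _ (hn i) (hn 0)
  have keyE : ∀ i (a b c : Fin 10),
      (T i ⟨rk (e a) (e 0), hA _⟩ : El' A).1 (e b) = e c → m i (E a) * E b = E c := by
    intro i a b c h
    exact key i _ _ _ _ (hEn a) h (by rw [hn, hn])
  have r1 : m 1 (E 1) * E 3 = m 0 (E 3) * E 2 := by
    rw [keyE 1 1 3 6 h23, keyE 0 3 2 6 h12]
  have r2 : m 2 (E 1) * E 4 = m 0 (E 4) * E 1 := by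
    rw [keyE 2 1 4 7 h34', keyE 0 4 1 7 h14']
  have r3 : m 2 (E 2) * E 4 = - (m 0 (E 4) * E 2) := by
    rw [keyE 0 4 2 8 h14]
    have := key 2 (rk (e 2) (e 0)) (e 4) (- e 8) (e 0) (hEn 2) h34 (by rw [norm_neg, hn, hn])
    rw [this]
    refine Subtype.ext ?_
    ext y
    show V (⟪e 0, adjoint V.toContinuousLinearMap y⟫_ℂ • (- e 8)) =
      - V (⟪e 0, adjoint V.toContinuousLinearMap y⟫_ℂ • (e 8))
    rw [smul_neg, map_neg]
  have r4 : m 2 (E 3) * E 4 = E 9 := keyE 2 3 4 9 h39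
  have r5 : m 1 (E 4) * E 3 = E 9 := keyE 1 4 3 9 h29
  have r6 : m 0 (E 0) * E 2 = E 2 := keyE 0 0 2 2 h10
  -- two evaluations of the same product
  have c1 : m 2 (m 1 (E 1) * E 3) * E 4 = - (m 0 (E 9) * E 2) := by
    rw [r1, hmul, mul_assoc, r3, mul_neg, ← mul_assoc, hcomm 2 0, ← hmul, r4]
  have c2 : m 2 (m 1 (E 1) * E 3) * E 4 = m 0 (E 9) * E 2 := by
    rw [hmul, mul_assoc, r4, ← r5, ← mul_assoc, hcomm 2 1, ← hmul, r2, hmul, mul_assoc, r1,
      ← mul_assoc, hcomm 1 0, ← hmul, r5]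
  have hZ : m 0 (E 9) * E 2 = 0 := by
    have h : m 0 (E 9) * E 2 = - (m 0 (E 9) * E 2) := c2.symm.trans c1
    have h2 : (2 : ℂ) • (m 0 (E 9) * E 2) = 0 := by
      rw [two_smul]
      nth_rewrite 2 [h]
      exact add_neg_cancel _
    exact (smul_eq_zero.1 h2).resolve_left two_ne_zero
  have hR : hat (rk (e 0) (e 9)) * E 9 = E 0 := by
    show hat (rk (e 0) (e 9)) * hat (rk (e 9) (e 0)) = hat (rk (e 0) (e 0))
    rw [hat_mul]
    congr 1
    ext z
    show ⟪e 9, ⟪e 0, z⟫_ℂ • e 9⟫_ℂ • e 0 = ⟪e 0, z⟫_ℂ • e 0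
    rw [inner_smul_right, inner_self_eq_norm_sq_to_K, hn]
    simp
  have hE2 : E 2 = 0 := by
    rw [← r6, ← hR, hmul, mul_assoc, hZ, mul_zero]
  have hz : V (e 2) = 0 := by
    have h := congrArg (fun x : El' B => (x : K →L[ℂ] K) (V (e 0))) hE2
    have h' : V (⟪e 0, adjoint V.toContinuousLinearMap (V (e 0))⟫_ℂ • e 2) = 0 := h
    rw [adj_V, inner_self_eq_norm_sq_to_K, hn] at h'
    simpa using h'
  have : ‖V (e 2)‖ = 1 := by rw [V.norm_map, hn]
  rw [hz, norm_zero] at this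
  exact zero_ne_one this

end NoDil

section Kraus

variable {H : Type u} [NormedAddCommGroup H] [InnerProductSpace ℂ H] [CompleteSpace H]

lemma IsNCCP.one (A : VonNeumannAlgebra H) : IsNCCP A id :=
  ⟨fun _ _ => rfl, fun _ _ => rfl, fun _ _ h => h, fun _ => le_rfl, @continuous_id _ (swTop A)⟩

lemma IsNCCP.mul {A : VonNeumannAlgebra H} {S T : El A → El A} (hS : IsNCCP A S)
    (hT : IsNCCP A T) : IsNCCP A (S ∘ T) := by
  refine ⟨fun a b => ?_, fun c a => ?_, fun n x h => hS.cp n _ (hT.cp n x h),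
    fun a => (hS.contr _).trans (hT.contr a), ?_⟩
  · rw [Function.comp, hT.map_add, hS.map_add]; rfl
  · rw [Function.comp, hT.map_smul, hS.map_smul]; rfl
  have h1 : @Continuous _ _ (swTop A) (swTop A) S := hS.normal
  have h2 : @Continuous _ _ (swTop A) (swTop A) T := hT.normal
  have h3 : @Continuous _ _ (swTop A) (swTop A) (S ∘ T) :=
    @Continuous.comp _ _ _ (swTop A) (swTop A) (swTop A) T S h1 h2
  exact h3

lemma IsNCCP.iter {A : VonNeumannAlgebra H} {T : El A → El A} (hT : IsNCCP A T) (n : ℕ) :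
    IsNCCP A (T^[n]) := by
  induction n with
  | zero => exact IsNCCP.one A
  | succ n ih => rw [Function.iterate_succ]; exact ih.mul hT

lemma isCPSemigroup_semi {A : VonNeumannAlgebra H} {T₁ T₂ T₃ : El A → El A}
    (h1 : IsNCCP A T₁) (h2 : IsNCCP A T₂) (h3 : IsNCCP A T₃)
    (h12 : Function.Commute T₁ T₂) (h13 : Function.Commute T₁ T₃)
    (h23 : Function.Commute T₂ T₃) :
    IsCPSemigroup A (semi T₁ T₂ T₃) := by
  have h : ∀ s, IsNCCP A (semi T₁ T₂ T₃ s) :=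
    fun s => (h1.iter _).mul ((h2.iter _).mul (h3.iter _))
  refine ⟨h, ?_, ?_⟩
  · simp only [semi, Pi.zero_apply, Function.iterate_zero]
    rfl
  · intro s t
    funext x
    show T₁^[(s + t) 0] (T₂^[(s + t) 1] (T₃^[(s + t) 2] x)) =
      T₁^[s 0] (T₂^[s 1] (T₃^[s 2] (T₁^[t 0] (T₂^[t 1] (T₃^[t 2] x)))))
    simp only [Pi.add_apply, Function.iterate_add_apply]
    have a1 : ∀ y, T₂^[s 1] (T₁^[t 0] y) = T₁^[t 0] (T₂^[s 1] y) :=
      h12.symm.iterate_iterate (s 1) (t 0)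
    have a2 : ∀ y, T₃^[s 2] (T₁^[t 0] y) = T₁^[t 0] (T₃^[s 2] y) :=
      h13.symm.iterate_iterate (s 2) (t 0)
    have a3 : ∀ y, T₃^[s 2] (T₂^[t 1] y) = T₂^[t 1] (T₃^[s 2] y) :=
      h23.symm.iterate_iterate (s 2) (t 1)
    rw [a2, a1, a3]

variable {ι : Type} [Fintype ι]

/-- The completely positive map `x ↦ ∑_α W_α* x W_α`. -/
noncomputable def kraus (W : ι → (H →L[ℂ] H)) (x : H →L[ℂ] H) : H →L[ℂ] H :=
  ∑ α, adjoint (W α) ∘L x ∘L W α

lemma inner_kraus (W : ι → (H →L[ℂ] H)) (x : H →L[ℂ] H) (ξ η : H) :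
    ⟪ξ, kraus W x η⟫_ℂ = ∑ α, ⟪W α ξ, x (W α η)⟫_ℂ := by
  simp only [kraus, sum_apply, inner_sum, comp_apply, adjoint_inner_right]

/-- `kraus W` as a linear map of `A = B(H)`. -/
noncomputable def krausEl (A : VonNeumannAlgebra H) (hA : ∀ a : H →L[ℂ] H, a ∈ A)
    (W : ι → (H →L[ℂ] H)) : El' A →ₗ[ℂ] El' A where
  toFun x := ⟨kraus W x, hA _⟩
  map_add' x y := by
    refine Subtype.ext ?_
    show kraus W ((x : H →L[ℂ] H) + y) = kraus W x + kraus W y
    simp only [kraus, add_comp, comp_add, Finset.sum_add_distrib]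
  map_smul' c x := by
    refine Subtype.ext ?_
    show kraus W (c • (x : H →L[ℂ] H)) = c • kraus W x
    simp only [kraus, smul_comp, comp_smul, Finset.smul_sum]

lemma krausEl_coe (A : VonNeumannAlgebra H) (hA : ∀ a : H →L[ℂ] H, a ∈ A)
    (W : ι → (H →L[ℂ] H)) (x : El' A) : (krausEl A hA W x : H →L[ℂ] H) = kraus W x := rfl

lemma krausEl_cp (A : VonNeumannAlgebra H) (hA : ∀ a : H →L[ℂ] H, a ∈ A)
    (W : ι → (H →L[ℂ] H)) : IsCP A (krausEl A hA W) := by
  intro n (x : Fin n → Fin n → El' A) hx ξ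
  have : ∑ i, ∑ j, ⟪ξ i, (krausEl A hA W (x i j) : H →L[ℂ] H) (ξ j)⟫_ℂ =
      ∑ α, ∑ i, ∑ j, ⟪W α (ξ i), (x i j : H →L[ℂ] H) (W α (ξ j))⟫_ℂ := by
    simp only [krausEl_coe, inner_kraus]
    symm
    rw [Finset.sum_comm]
    refine Finset.sum_congr rfl fun i _ => ?_
    rw [Finset.sum_comm]
  show 0 ≤ ∑ i, ∑ j, ⟪ξ i, (krausEl A hA W (x i j) : H →L[ℂ] H) (ξ j)⟫_ℂ
  rw [this]
  exact Finset.sum_nonneg fun α _ => hx fun i => W α (ξ i)

lemma kraus_contr (W : ι → (H →L[ℂ] H)) (hW : kraus W 1 = 1) (x : H →L[ℂ] H) :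
    ‖kraus W x‖ ≤ ‖x‖ := by
  have hsum : ∀ ξ : H, ∑ α, ‖W α ξ‖ ^ 2 = ‖ξ‖ ^ 2 := by
    intro ξ
    have h := inner_kraus W 1 ξ ξ
    rw [hW] at h
    have h' : ((‖ξ‖ ^ 2 : ℝ) : ℂ) = (((∑ α : ι, ‖W α ξ‖ ^ 2) : ℝ) : ℂ) := by
      push_cast
      rw [show ⟪ξ, (1 : H →L[ℂ] H) ξ⟫_ℂ = ⟪ξ, ξ⟫_ℂ from rfl, inner_self_eq_norm_sq_to_K] at h
      refine (h.trans ?_)
      refine Finset.sum_congr rfl fun α _ => ?_
      exact (inner_self_eq_norm_sq_to_K (𝕜 := ℂ) (W α ξ))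
    exact_mod_cast h'.symm
  refine ContinuousLinearMap.opNorm_le_bound _ (norm_nonneg x) fun ξ => ?_
  have key : ∀ η : H, ‖⟪η, kraus W x ξ⟫_ℂ‖ ≤ ‖x‖ * ‖ξ‖ * ‖η‖ := by
    intro η
    rw [inner_kraus]
    calc ‖∑ α, ⟪W α η, x (W α ξ)⟫_ℂ‖ ≤ ∑ α, ‖⟪W α η, x (W α ξ)⟫_ℂ‖ := norm_sum_le _ _
      _ ≤ ∑ α, ‖x‖ * (‖W α η‖ * ‖W α ξ‖) := by
          refine Finset.sum_le_sum fun α _ => ?_
          calc ‖⟪W α η, x (W α ξ)⟫_ℂ‖ ≤ ‖W α η‖ * ‖x (W α ξ)‖ := norm_inner_le_norm _ _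
            _ ≤ ‖W α η‖ * (‖x‖ * ‖W α ξ‖) := by gcongr; exact le_opNorm _ _
            _ = _ := by ring
      _ = ‖x‖ * ∑ α, ‖W α η‖ * ‖W α ξ‖ := by rw [Finset.mul_sum]
      _ ≤ ‖x‖ * (‖η‖ * ‖ξ‖) := by
          gcongr
          have h := Finset.sum_mul_sq_le_sq_mul_sq Finset.univ (fun α => ‖W α η‖)
            (fun α => ‖W α ξ‖)
          rw [hsum, hsum, ← mul_pow] at h
          exact le_of_sq_le_sq h (by positivity)
      _ = _ := by ring
  by_cases h0 : kraus W x ξ = 0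
  · rw [h0, norm_zero]; positivity
  · have h := key (kraus W x ξ)
    rw [inner_self_eq_norm_sq_to_K] at h
    have hpos : 0 < ‖kraus W x ξ‖ := norm_pos_iff.2 h0
    have h2 : ‖kraus W x ξ‖ * ‖kraus W x ξ‖ ≤ ‖x‖ * ‖ξ‖ * ‖kraus W x ξ‖ := by
      simpa [sq] using h
    exact le_of_mul_le_mul_right h2 hpos

end Kraus

section FiniteDim

variable {H : Type u} [NormedAddCommGroup H] [InnerProductSpace ℂ H] [CompleteSpace H]

omit [CompleteSpace H] in
lemma summable_swFun {ξ η : ℕ → H} (hξ : Summable fun n => ‖ξ n‖ ^ 2)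
    (hη : Summable fun n => ‖η n‖ ^ 2) (a : H →L[ℂ] H) : Summable fun n => ⟪η n, a (ξ n)⟫_ℂ := by
  refine Summable.of_norm_bounded (g := fun n => ‖a‖ * (‖ξ n‖ ^ 2 + ‖η n‖ ^ 2))
    ((hξ.add hη).mul_left _) fun n => ?_
  calc ‖⟪η n, a (ξ n)⟫_ℂ‖ ≤ ‖η n‖ * ‖a (ξ n)‖ := norm_inner_le_norm _ _
    _ ≤ ‖η n‖ * (‖a‖ * ‖ξ n‖) := by gcongr; exact le_opNorm _ _
    _ = ‖a‖ * (‖ξ n‖ * ‖η n‖) := by ring
    _ ≤ ‖a‖ * (‖ξ n‖ ^ 2 + ‖η n‖ ^ 2) := by
        gcongr
        nlinarith [sq_nonneg (‖ξ n‖ - ‖η n‖), sq_nonneg (‖ξ n‖), sq_nonneg (‖η n‖)]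

omit [CompleteSpace H] in
lemma swFun_single (x y : H) (a : H →L[ℂ] H) :
    swFun (Pi.single 0 x) (Pi.single 0 y) a = ⟪y, a x⟫_ℂ := by
  unfold swFun
  rw [tsum_eq_single 0]
  · simp
  · intro n hn
    simp [hn]

/-- In finite dimension every linear map of `B(H)` is normal. -/
lemma isNormal_of_finite {n : ℕ} (b : OrthonormalBasis (Fin n) ℂ H) (A : VonNeumannAlgebra H)
    (hA : ∀ a : H →L[ℂ] H, a ∈ A) (T : El' A →ₗ[ℂ] El' A) : IsNormal A T := by
  unfold IsNormal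
  let t : TopologicalSpace (El' A) := swTop A
  refine continuous_iInf_rng.2 fun p => continuous_induced_rng.2 ?_
  obtain ⟨⟨ξ, η⟩, hξ, hη⟩ := p
  simp only at hξ hη
  -- expansion of `a` in matrix units
  have hexp : ∀ a : El' A, a = ∑ i, ∑ j, ⟪b i, (a : H →L[ℂ] H) (b j)⟫_ℂ •
      (⟨rk (b i) (b j), hA _⟩ : El' A) := by
    intro a
    refine Subtype.ext ?_
    have : ((∑ i, ∑ j, ⟪b i, (a : H →L[ℂ] H) (b j)⟫_ℂ •
      (⟨rk (b i) (b j), hA _⟩ : El' A) : El' A) : H →L[ℂ] H) =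
        ∑ i, ∑ j, ⟪b i, (a : H →L[ℂ] H) (b j)⟫_ℂ • rk (b i) (b j) := by
      push_cast
      rfl
    rw [this]
    refine ContinuousLinearMap.ext fun z => ?_
    simp only [sum_apply, smul_apply, rk_apply]
    have hz : (a : H →L[ℂ] H) z = ∑ j, ⟪b j, z⟫_ℂ • (a : H →L[ℂ] H) (b j) := by
      conv_lhs => rw [← b.sum_repr' z]
      rw [map_sum]
      simp only [map_smul]
    rw [Finset.sum_comm, hz]
    refine Finset.sum_congr rfl fun j _ => ?_
    conv_lhs => rw [← b.sum_repr' ((a : H →L[ℂ] H) (b j))]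
    rw [Finset.smul_sum]
    refine Finset.sum_congr rfl fun i _ => ?_
    rw [smul_smul, smul_smul, mul_comm]
  have hfun : (fun a : El' A => swFun ξ η ((T a : El' A) : H →L[ℂ] H)) =
      fun a : El' A => ∑ i, ∑ j, ⟪b i, (a : H →L[ℂ] H) (b j)⟫_ℂ *
        swFun ξ η ((T ⟨rk (b i) (b j), hA _⟩ : El' A) : H →L[ℂ] H) := by
    funext a
    have h1 : ((T a : El' A) : H →L[ℂ] H) = ∑ i, ∑ j, ⟪b i, (a : H →L[ℂ] H) (b j)⟫_ℂ •
        ((T ⟨rk (b i) (b j), hA _⟩ : El' A) : H →L[ℂ] H) := by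
      conv_lhs => rw [hexp a]
      simp only [map_sum, map_smul]
      push_cast
      rfl
    have hadd : ∀ (m : ℕ) (y : Fin m → (H →L[ℂ] H)),
        swFun ξ η (⇑(∑ i, y i : H →L[ℂ] H)) = ∑ i, swFun ξ η (y i) := by
      intro m y
      unfold swFun
      rw [← Summable.tsum_finsetSum (fun i _ => summable_swFun hξ hη (y i))]
      refine tsum_congr fun k => ?_
      rw [sum_apply, inner_sum]
    have hsmul : ∀ (c : ℂ) (y : H →L[ℂ] H), swFun ξ η (⇑(c • y : H →L[ℂ] H)) = c * swFun ξ η y := by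
      intro c y
      unfold swFun
      rw [← tsum_mul_left]
      refine tsum_congr fun k => ?_
      rw [smul_apply, inner_smul_right]
    rw [h1, hadd]
    refine Finset.sum_congr rfl fun i _ => ?_
    rw [hadd]
    refine Finset.sum_congr rfl fun j _ => ?_
    rw [hsmul]
  show Continuous (fun a : El' A => swFun ξ η ((T a : El' A) : H →L[ℂ] H))
  rw [hfun]
  refine continuous_finsetSum _ fun i _ => continuous_finsetSum _ fun j _ => ?_
  refine Continuous.mul ?_ continuous_const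
  have hs : ∀ x : H, Summable fun n => ‖(Pi.single 0 x : ℕ → H) n‖ ^ 2 := by
    intro x
    refine summable_of_ne_finset_zero (s := {0}) fun k hk => ?_
    have : k ≠ 0 := by simpa using hk
    simp [this]
  have h2 : (fun a : El' A => ⟪b i, (a : H →L[ℂ] H) (b j)⟫_ℂ) =
      fun a : El' A => swFun (Pi.single 0 (b j)) (Pi.single 0 (b i)) (a : H →L[ℂ] H) := by
    funext a
    rw [swFun_single]
  rw [h2]
  refine continuous_iInf_dom (i := ⟨(Pi.single 0 (b j), Pi.single 0 (b i)), hs _, hs _⟩) ?_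
  exact continuous_induced_dom

end FiniteDim

section Model

/-- The ten-dimensional Hilbert space. -/
abbrev X : Type := EuclideanSpace ℂ (Fin 10)

/-- Its standard orthonormal basis. -/
noncomputable def bs : OrthonormalBasis (Fin 10) ℂ X := EuclideanSpace.basisFun (Fin 10) ℂ

/-- The von Neumann algebra `B(ℂ¹⁰)`. -/
noncomputable def full : VonNeumannAlgebra X where
  toStarSubalgebra := ⊤
  centralizer_centralizer' := by
    refine Set.Subset.antisymm (fun _ _ => trivial) ?_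
    exact Set.subset_centralizer_centralizer

lemma mem_full (a : X →L[ℂ] X) : a ∈ full := trivial

/-- The Kraus operators attached to a block labelling `β`, an index map `ψ` and signs `s`:
`W_α e_m = s(m) e_{ψ(m)}` if `β(m) = α`, and `0` otherwise. -/
noncomputable def Wop (β ψ : Fin 10 → Fin 10) (s : Fin 10 → ℤ) (α : Fin 10) : X →L[ℂ] X :=
  LinearMap.toContinuousLinearMap (bs.toBasis.constr ℂ
    fun m => if β m = α then (s m : ℂ) • bs (ψ m) else 0)

lemma Wop_apply (β ψ : Fin 10 → Fin 10) (s : Fin 10 → ℤ) (α m : Fin 10) :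
    Wop β ψ s α (bs m) = if β m = α then (s m : ℂ) • bs (ψ m) else 0 := by
  unfold Wop
  rw [LinearMap.coe_toContinuousLinearMap', ← bs.coe_toBasis, Module.Basis.constr_basis]

/-- matrix entries of the Kraus maps. -/
lemma entry (β ψ : Fin 10 → Fin 10) (s : Fin 10 → ℤ) (x : X →L[ℂ] X) (m n : Fin 10) :
    ⟪bs m, kraus (Wop β ψ s) x (bs n)⟫_ℂ =
      (((if β m = β n then s m * s n else 0 : ℤ)) : ℂ) * ⟪bs (ψ m), x (bs (ψ n))⟫_ℂ := by
  rw [inner_kraus]
  simp only [Wop_apply]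
  rw [Finset.sum_eq_single (β m)]
  · by_cases h : β m = β n
    · rw [if_pos rfl, if_pos h.symm, if_pos h]
      rw [inner_smul_left, map_smul, inner_smul_right]
      push_cast
      simp
      ring
    · rw [if_neg (fun h' : β n = β m => h h'.symm), if_neg h]
      simp
  · intro α _ hα
    rw [if_neg (fun h => hα h.symm)]
    simp
  · simp

lemma ext_bs {v w : X} (h : ∀ m, ⟪bs m, v⟫_ℂ = ⟪bs m, w⟫_ℂ) : v = w :=
  InnerProductSpace.ext_inner_left_basis bs.toBasis fun m => by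
    simpa using h m

lemma ext_entry {x y : X →L[ℂ] X} (h : ∀ m n, ⟪bs m, x (bs n)⟫_ℂ = ⟪bs m, y (bs n)⟫_ℂ) :
    x = y := by
  have h1 : ∀ n, x (bs n) = y (bs n) := by
    intro n
    exact ext_bs (fun m => h m n)
  have h2 : (x : X →ₗ[ℂ] X) = (y : X →ₗ[ℂ] X) := bs.toBasis.ext fun n => by
    simpa using h1 n
  exact ContinuousLinearMap.coe_injective h2

lemma inner_bs (i j : Fin 10) : ⟪bs i, bs j⟫_ℂ = if i = j then 1 else 0 :=
  orthonormal_iff_ite.1 bs.orthonormal i j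

/-- The state given by the vector `Ω = e_0`, times the identity. -/
noncomputable def om (x : X →L[ℂ] X) : X →L[ℂ] X := ⟪bs 0, x (bs 0)⟫_ℂ • 1

lemma comp_eq_om {β ψ β' ψ' : Fin 10 → Fin 10} {s s' : Fin 10 → ℤ}
    (h : ∀ m n : Fin 10, (if β m = β n then s m * s n else 0) *
      (if β' (ψ m) = β' (ψ n) then s' (ψ m) * s' (ψ n) else 0) = if m = n then 1 else 0)
    (h' : ∀ m, ψ' (ψ m) = 0) (x : X →L[ℂ] X) :
    kraus (Wop β ψ s) (kraus (Wop β' ψ' s') x) = om x := by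
  refine ext_entry fun m n => ?_
  rw [entry, entry, h', h', ← mul_assoc, ← Int.cast_mul, h]
  unfold om
  rw [smul_apply, inner_smul_right, one_apply_eq_self, inner_bs, mul_comm]
  push_cast
  rfl

lemma unital_of {β ψ : Fin 10 → Fin 10} {s : Fin 10 → ℤ}
    (h : ∀ m n : Fin 10, (if β m = β n then s m * s n else 0) *
      (if ψ m = ψ n then 1 else 0) = if m = n then (1 : ℤ) else 0) :
    kraus (Wop β ψ s) 1 = 1 := by
  refine ext_entry fun m n => ?_
  rw [entry, one_apply_eq_self, one_apply_eq_self, inner_bs, inner_bs]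
  have := congrArg (fun z : ℤ => (z : ℂ)) (h m n)
  push_cast at this ⊢
  exact this

lemma act_of {β ψ : Fin 10 → Fin 10} {s : Fin 10 → ℤ} (a n t : Fin 10) (c : ℤ)
    (h : ∀ m : Fin 10, (if β m = β n then s m * s n else 0) *
      ((if 0 = ψ n then 1 else 0) * (if ψ m = a then 1 else 0)) = if m = t then c else 0) :
    kraus (Wop β ψ s) (rk (bs a) (bs 0)) (bs n) = (c : ℂ) • bs t := by
  refine ext_bs fun m => ?_
  rw [entry, rk_apply, inner_smul_right, inner_bs, inner_bs, inner_smul_right, inner_bs]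
  have := congrArg (fun z : ℤ => (z : ℂ)) (h m)
  push_cast at this ⊢
  rw [this]
  split_ifs <;> simp

/-- block labels, index maps and signs of the three maps.  Basis vectors:
`0 = Ω`, `1, 2 = a₁, a₂`, `3 = b`, `4 = c`, `5, 6 = f₁, f₂`, `7, 8 = g₁, g₂`, `9 = h`. -/
def β₁ : Fin 10 → Fin 10 := ![0, 1, 2, 3, 4, 1, 2, 1, 2, 9]
/-- see `β₁` -/
def ψ₁ : Fin 10 → Fin 10 := ![0, 0, 0, 0, 0, 3, 3, 4, 4, 0]
/-- see `β₁` -/
def s₁ : Fin 10 → ℤ := ![1, 1, 1, 1, 1, 1, 1, 1, 1, 1]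
/-- see `β₁` -/
def β₂ : Fin 10 → Fin 10 := ![0, 1, 2, 3, 4, 3, 3, 7, 8, 3]
/-- see `β₁` -/
def ψ₂ : Fin 10 → Fin 10 := ![0, 0, 0, 0, 0, 2, 1, 0, 0, 4]
/-- see `β₁` -/
def s₂ : Fin 10 → ℤ := ![1, 1, 1, 1, 1, 1, 1, 1, 1, 1]
/-- see `β₁` -/
def β₃ : Fin 10 → Fin 10 := ![0, 1, 2, 3, 4, 5, 6, 4, 4, 4]
/-- see `β₁` -/
def ψ₃ : Fin 10 → Fin 10 := ![0, 0, 0, 0, 0, 0, 0, 1, 2, 3]
/-- see `β₁` -/
def s₃ : Fin 10 → ℤ := ![1, 1, 1, 1, 1, 1, 1, 1, -1, 1]

/-- The three maps. -/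
noncomputable def Tm (β ψ : Fin 10 → Fin 10) (s : Fin 10 → ℤ) : El' full →ₗ[ℂ] El' full :=
  krausEl full mem_full (Wop β ψ s)

lemma Tm_nccp {β ψ : Fin 10 → Fin 10} {s : Fin 10 → ℤ} (h : kraus (Wop β ψ s) 1 = 1) :
    IsNCCP full (Tm β ψ s) :=
  ⟨(Tm β ψ s).map_add, (Tm β ψ s).map_smul, krausEl_cp _ _ _, fun a => kraus_contr _ h a.1, isNormal_of_finite bs full mem_full _⟩

lemma Tm_one {β ψ : Fin 10 → Fin 10} {s : Fin 10 → ℤ} (h : kraus (Wop β ψ s) 1 = 1) :
    Tm β ψ s 1 = 1 := Subtype.ext h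

lemma Tm_commute {β ψ β' ψ' : Fin 10 → Fin 10} {s s' : Fin 10 → ℤ}
    (h : ∀ x, kraus (Wop β ψ s) (kraus (Wop β' ψ' s') x) = om x)
    (h' : ∀ x, kraus (Wop β' ψ' s') (kraus (Wop β ψ s) x) = om x) :
    Function.Commute (Tm β ψ s) (Tm β' ψ' s') := by
  refine fun x => Subtype.ext ?_
  exact (h x).trans (h' x).symm

lemma uni₁ : kraus (Wop β₁ ψ₁ s₁) 1 = 1 := unital_of (by decide)
lemma uni₂ : kraus (Wop β₂ ψ₂ s₂) 1 = 1 := unital_of (by decide)
lemma uni₃ : kraus (Wop β₃ ψ₃ s₃) 1 = 1 := unital_of (by decide)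

lemma c12 : Function.Commute (Tm β₁ ψ₁ s₁) (Tm β₂ ψ₂ s₂) :=
  Tm_commute (comp_eq_om (by decide) (by decide)) (comp_eq_om (by decide) (by decide))
lemma c13 : Function.Commute (Tm β₁ ψ₁ s₁) (Tm β₃ ψ₃ s₃) :=
  Tm_commute (comp_eq_om (by decide) (by decide)) (comp_eq_om (by decide) (by decide))
lemma c23 : Function.Commute (Tm β₂ ψ₂ s₂) (Tm β₃ ψ₃ s₃) :=
  Tm_commute (comp_eq_om (by decide) (by decide)) (comp_eq_om (by decide) (by decide))

lemma Tm_act {β ψ : Fin 10 → Fin 10} {s : Fin 10 → ℤ} (a n t : Fin 10)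
    (h : ∀ m : Fin 10, (if β m = β n then s m * s n else 0) *
      ((if 0 = ψ n then 1 else 0) * (if ψ m = a then 1 else 0)) = if m = t then 1 else 0) :
    (Tm β ψ s ⟨rk (bs a) (bs 0), mem_full _⟩ : X →L[ℂ] X) (bs n) = bs t := by
  have := act_of a n t 1 h
  rw [Int.cast_one, one_smul] at this
  exact this

lemma Tm_act_neg {β ψ : Fin 10 → Fin 10} {s : Fin 10 → ℤ} (a n t : Fin 10)
    (h : ∀ m : Fin 10, (if β m = β n then s m * s n else 0) *
      ((if 0 = ψ n then 1 else 0) * (if ψ m = a then 1 else 0)) = if m = t then -1 else 0) :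
    (Tm β ψ s ⟨rk (bs a) (bs 0), mem_full _⟩ : X →L[ℂ] X) (bs n) = - bs t := by
  have := act_of a n t (-1) h
  rw [Int.cast_neg, Int.cast_one, neg_one_smul] at this
  exact this

end Model

/-- **Answer to Q1 (yes).**  There are a Hilbert space `H` with `dim H = 10` and three commuting
unital normal completely positive maps on the von Neumann algebra `A = B(H)` whose associated
CP-semigroup over `ℕ³` has no dilation at all, whatever the Hilbert space `K` and the von Neumann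
algebra `B ⊆ B(K)`. -/
theorem result :
    ∃ (H : Type) (_ : NormedAddCommGroup H) (_ : InnerProductSpace ℂ H) (_ : CompleteSpace H)
      (A : VonNeumannAlgebra H) (T : Fin 3 → El A → El A),
      Module.finrank ℂ H = 10 ∧ IsFull A ∧
      (∀ i, IsNCCP A (T i)) ∧ (∀ i, T i 1 = 1) ∧ (∀ i j, T i ∘ T j = T j ∘ T i) ∧
      IsCPSemigroup A (semi (T 0) (T 1) (T 2)) ∧
      ¬ HasDilation.{0, u} (semi (T 0) (T 1) (T 2)) := by
  refine ⟨X, inferInstance, inferInstance, inferInstance, full,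
    ![Tm β₁ ψ₁ s₁, Tm β₂ ψ₂ s₂, Tm β₃ ψ₃ s₃], by simp, mem_full, ?_, ?_, ?_, ?_, ?_⟩
  · intro i
    fin_cases i
    exacts [Tm_nccp uni₁, Tm_nccp uni₂, Tm_nccp uni₃]
  · intro i
    fin_cases i
    exacts [Tm_one uni₁, Tm_one uni₂, Tm_one uni₃]
  · intro i j
    fin_cases i <;> fin_cases j
    exacts [rfl, c12.comp_eq, c13.comp_eq, c12.symm.comp_eq, rfl, c23.comp_eq, c13.symm.comp_eq,
      c23.symm.comp_eq, rfl]
  · exact isCPSemigroup_semi (Tm_nccp uni₁) (Tm_nccp uni₂) (Tm_nccp uni₃) c12 c13 c23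
  · rintro ⟨K, _, _, _, V, B, θ, h⟩
    exact no_dilation_of V (e := fun i => bs i) (fun i => bs.orthonormal.1 i) mem_full
      (Tm_act 1 3 6 (by decide)) (Tm_act 3 2 6 (by decide)) (Tm_act_neg 2 4 8 (by decide))
      (Tm_act 4 2 8 (by decide)) (Tm_act 4 1 7 (by decide)) (Tm_act 1 4 7 (by decide))
      (Tm_act 3 4 9 (by decide)) (Tm_act 4 3 9 (by decide)) (Tm_act 0 2 2 (by decide)) B θ h

end Pool.Agent.Results.MP_0a86e9_an.NoDilation
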